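import Pool.Agent.H223R3.EMC.Conv

set_option autoImplicit false

namespace Pool.Agent.Results.MP_9079fe_co.GeneralBound

/-- If `(s+1)(k + (y/n)^k/(1 - y/n)) < n + 1`, then a family of `k`-subsets of an `n`-set with no
`s+1` pairwise disjoint members has at most `C(n,k) - C(y,k)` members. -/
theorem result (n k s y : ℕ) (hk : 1 ≤ k) (hky : k ≤ y) (hyn : y < n)
    (hs : ((s : ℚ) + 1) * (k + ((y : ℚ) / n) ^ k / (1 - (y : ℚ) / n)) < n + 1)
    (F : Finset (Finset (Fin n))) (hF : ∀ A ∈ F, A.card = k)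
    (hM : ∀ M ⊆ F, (M : Set (Finset (Fin n))).PairwiseDisjoint id → M.card ≤ s) :
    F.card ≤ n.choose k - y.choose k := by
  have h := H223R3.EMC.main n k s y hky hyn F hF
    (H223R3.EMC.noMatching_of hk F hF hM) hs
  omega

end Pool.Agent.Results.MP_9079fe_co.GeneralBound
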