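import Pool.Agent.H223R3.EMC.Conv

set_option autoImplicit false

namespace Pool.Agent.Results.MP_9079fe_co.NearPerfect

/-- For `k ≥ 3`, `s ≥ 6` and `k(s+1) ≤ n ≤ k(s+1) + s/(4k)`, a family of `k`-subsets of an
`n`-set with no `s+1` pairwise disjoint members has at most `C(k(s+1),k)` members, which is
`(1 + 1/s) C(k(s+1)-1,k)`. -/
theorem result (n k s : ℕ) (hk : 3 ≤ k) (hs : 6 ≤ s) (hn : k * (s + 1) ≤ n)
    (hn2 : 4 * k * (n - k * (s + 1)) ≤ s)
    (F : Finset (Finset (Fin n))) (hF : ∀ A ∈ F, A.card = k)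
    (hM : ∀ M ⊆ F, (M : Set (Finset (Fin n))).PairwiseDisjoint id → M.card ≤ s) :
    F.card ≤ (k * (s + 1)).choose k ∧
      ((k * (s + 1)).choose k : ℝ) = (1 + 1 / (s : ℝ)) * ((k * (s + 1) - 1).choose k : ℝ) := by
  refine ⟨H223R3.EMC.near_perfect n k s (n - k * (s + 1)) hk hs hn2 (by omega) F hF
    (H223R3.EMC.noMatching_of (by omega) F hF hM), ?_⟩
  have h1 : (s : ℝ) * ((k * (s + 1)).choose k : ℝ) =
      ((s : ℝ) + 1) * ((k * (s + 1) - 1).choose k : ℝ) := by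
    exact_mod_cast H223R3.EMC.choose_clique k s (by omega)
  have hs0 : (0 : ℝ) < s := by exact_mod_cast (by omega : 0 < s)
  field_simp
  linarith

end Pool.Agent.Results.MP_9079fe_co.NearPerfect
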